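import Pool.Agent.Helper57.TW.Goals
import Pool.Agent.Helper61.CR.TV

set_option autoImplicit false

/-!
# MP_74f661_nt, block B: the trivial bound (packet T74B-TN of helper57)
-/

namespace Pool.Agent.Helper44.TW

open Finset Filter Topology
open Pool.Agent.Helper57.TW
open scoped ArithmeticFunction

theorem fk_nonneg (x k n : ℕ) : 0 ≤ fk x k n := by
  unfold fk
  have h1 : 0 ≤ Real.log n := Real.log_natCast_nonneg n
  have h2 : 0 ≤ ArithmeticFunction.vonMangoldt n := ArithmeticFunction.vonMangoldt_nonneg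
  positivity

theorem fk_le {x k : ℕ} (hx : 16 ≤ x) (hk : 1 ≤ k) (n : ℕ) :
    fk x k n ≤ (k + 1) * (2 * Real.log x / k) ^ (k + 1) *
      (n : ℝ) ^ (-(1 + k / (2 * Real.log x))) := by
  have hx1 : (1 : ℝ) < x := by
    have : (16 : ℝ) ≤ x := by exact_mod_cast hx
    linarith
  have hlx : 0 < Real.log x := Real.log_pos hx1
  have hk0 : (0 : ℝ) < k := by exact_mod_cast (by omega : 0 < k)
  rcases Nat.eq_zero_or_pos n with rfl | hn
  · unfold fk
    simp only [ArithmeticFunction.map_zero, zero_mul]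
    positivity
  have hn0 : (0 : ℝ) < n := by exact_mod_cast hn
  have hln : 0 ≤ Real.log n := Real.log_natCast_nonneg n
  set y : ℝ := k / (2 * Real.log x) * Real.log n with hy
  have hy0 : 0 ≤ y := by positivity
  have h1 := Real.pow_div_factorial_le_exp y hy0 (k + 1)
  have h2 : Real.exp y = (n : ℝ) ^ (k / (2 * Real.log x)) := by
    rw [Real.rpow_def_of_pos hn0, hy, mul_comm]
  have h3 : Real.log n = (2 * Real.log x / k) * y := by
    rw [hy]
    field_simp
  have hfac : ((k + 1).factorial : ℝ) = (k + 1) * (k.factorial : ℝ) := by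
    rw [Nat.factorial_succ]
    push_cast
    ring
  have hf0 : (0 : ℝ) < k.factorial := by exact_mod_cast Nat.factorial_pos k
  have h4 : Real.log n ^ (k + 1) / (k.factorial : ℝ) ≤
      (k + 1) * (2 * Real.log x / k) ^ (k + 1) * (n : ℝ) ^ (k / (2 * Real.log x)) := by
    rw [← h2]
    rw [hfac, div_le_iff₀ (by positivity)] at h1
    rw [div_le_iff₀ hf0]
    calc Real.log n ^ (k + 1) = (2 * Real.log x / k) ^ (k + 1) * y ^ (k + 1) := by
          rw [← mul_pow, ← h3]
      _ ≤ (2 * Real.log x / k) ^ (k + 1) * (Real.exp y * ((k + 1) * (k.factorial : ℝ))) := by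
          apply mul_le_mul_of_nonneg_left h1 (by positivity)
      _ = _ := by ring
  have hΛ : ArithmeticFunction.vonMangoldt n ≤ Real.log n := ArithmeticFunction.vonMangoldt_le_log
  unfold fk
  have hp : 0 ≤ (n : ℝ) ^ (-(1 + k / Real.log x)) := Real.rpow_nonneg hn0.le _
  calc ArithmeticFunction.vonMangoldt n * (Real.log n ^ k / (k.factorial : ℝ)) *
        (n : ℝ) ^ (-(1 + k / Real.log x))
      ≤ Real.log n * (Real.log n ^ k / (k.factorial : ℝ)) *
        (n : ℝ) ^ (-(1 + k / Real.log x)) := by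
          apply mul_le_mul_of_nonneg_right _ hp
          exact mul_le_mul_of_nonneg_right hΛ (by positivity)
    _ = Real.log n ^ (k + 1) / (k.factorial : ℝ) * (n : ℝ) ^ (-(1 + k / Real.log x)) := by
          rw [pow_succ]
          ring
    _ ≤ ((k + 1) * (2 * Real.log x / k) ^ (k + 1) * (n : ℝ) ^ (k / (2 * Real.log x))) *
          (n : ℝ) ^ (-(1 + k / Real.log x)) := mul_le_mul_of_nonneg_right h4 hp
    _ = (k + 1) * (2 * Real.log x / k) ^ (k + 1) *
          ((n : ℝ) ^ (k / (2 * Real.log x)) * (n : ℝ) ^ (-(1 + k / Real.log x))) := by ring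
    _ = _ := by
          rw [← Real.rpow_add hn0]
          congr 2
          field_simp
          ring

/-- the trivial bound -/
theorem tn : StmtTN := by
  intro x k hx hk
  have hx1 : (1 : ℝ) < x := by
    have : (16 : ℝ) ≤ x := by exact_mod_cast hx
    linarith
  have hlx : 0 < Real.log x := Real.log_pos hx1
  have hk0 : (0 : ℝ) < k := by exact_mod_cast (by omega : 0 < k)
  obtain ⟨h1, h2⟩ :=
    Pool.Agent.Helper61.CR.zeta_bd (a := k / (2 * Real.log x)) (by positivity)
  have h3 := h1.mul_left ((k + 1) * (2 * Real.log x / k) ^ (k + 1))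
  have hs : Summable (fk x k) := Summable.of_nonneg_of_le (fk_nonneg x k) (fk_le hx hk) h3
  refine ⟨hs, ?_, ?_⟩
  · unfold fk
    simp
  · calc ∑' n, fk x k n ≤ ∑' n : ℕ, (k + 1) * (2 * Real.log x / k) ^ (k + 1) *
          (n : ℝ) ^ (-(1 + k / (2 * Real.log x))) := hs.tsum_le_tsum (fk_le hx hk) h3
      _ = (k + 1) * (2 * Real.log x / k) ^ (k + 1) *
          ∑' n : ℕ, (n : ℝ) ^ (-(1 + k / (2 * Real.log x))) := tsum_mul_left
      _ ≤ (k + 1) * (2 * Real.log x / k) ^ (k + 1) *
          (1 + 1 / (k / (2 * Real.log x))) := by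
            apply mul_le_mul_of_nonneg_left h2 (by positivity)
      _ = _ := by
            rw [one_div_div]

end Pool.Agent.Helper44.TW
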